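import Pool.Agent.Q260.SS.Elim

/-! The numerical core for star sets of codimension at most three. -/

namespace Pool.Agent.Q260.SS

open Matrix

variable (e1 e2 e3 p q r : Bool) (l : ℝ)

lemma ev_single (a : ℤ) : ev [a] l = a := by simp [ev]

lemma ev_cons_zero (P : List ℤ) : ev (0 :: P) l = l * ev P l := by simp [ev]

lemma ev_Dp : ev (Dp e1 e2 e3 p q r) l = ev (mp e1) l * ev (mp e2) l * ev (mp e3) l
    - c r ^ 2 * ev (mp e1) l - c q ^ 2 * ev (mp e2) l - c p ^ 2 * ev (mp e3) l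
    - 2 * c p * c q * c r := by
  unfold Dp
  simp only [ev_padd, ev_pmul, ev_psc, ev_single]
  push_cast
  ring

lemma ev_form (s1 s2 s3 t1 t2 t3 : ℤ) : ev (form e1 e2 e3 p q r s1 s2 s3 t1 t2 t3) l
    = s1 * ((ev (mp e2) l * ev (mp e3) l - c r ^ 2) * t1 + (c p * ev (mp e3) l + c q * c r) * t2
        + (c q * ev (mp e2) l + c p * c r) * t3)
      + s2 * ((c p * ev (mp e3) l + c q * c r) * t1 + (ev (mp e1) l * ev (mp e3) l - c q ^ 2) * t2
        + (c r * ev (mp e1) l + c p * c q) * t3)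
      + s3 * ((c q * ev (mp e2) l + c p * c r) * t1 + (c r * ev (mp e1) l + c p * c q) * t2
        + (ev (mp e1) l * ev (mp e2) l - c p ^ 2) * t3) := by
  unfold form N11 N22 N33 N12 N13 N23
  simp only [ev_padd, ev_pmul, ev_psc, ev_single]
  push_cast
  ring

lemma det_ne (hM : ∀ w1 w2 w3 : ℝ, ev (mp e1) l * w1 - c p * w2 - c q * w3 = 0 →
      -(c p : ℝ) * w1 + ev (mp e2) l * w2 - c r * w3 = 0 →
      -(c q : ℝ) * w1 - c r * w2 + ev (mp e3) l * w3 = 0 → w1 = 0 ∧ w2 = 0 ∧ w3 = 0) :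
    ev (Dp e1 e2 e3 p q r) l ≠ 0 := by
  intro hD
  set M : Matrix (Fin 3) (Fin 3) ℝ := !![ev (mp e1) l, -(c p : ℝ), -(c q : ℝ);
    -(c p : ℝ), ev (mp e2) l, -(c r : ℝ); -(c q : ℝ), -(c r : ℝ), ev (mp e3) l] with hMdef
  have hdet : M.det = 0 := by
    rw [← hD, ev_Dp, hMdef, Matrix.det_fin_three]
    simp
    ring
  obtain ⟨w, hw, hMw⟩ := Matrix.exists_mulVec_eq_zero_iff.2 hdet
  have h0 := congrFun hMw 0
  have h1 := congrFun hMw 1
  have h2 := congrFun hMw 2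
  simp [hMdef, Matrix.mulVec, dotProduct, Fin.sum_univ_three] at h0 h1 h2
  obtain ⟨a0, a1, a2⟩ := hM (w 0) (w 1) (w 2) (by linarith) (by linarith) (by linarith)
  apply hw
  ext i
  fin_cases i
  · exact a0
  · exact a1
  · exact a2

theorem core (e2 e3 p q r u1 u2 u3 v1 v2 v3 a : Bool)
    (hv : valid e2 e3 p q r u1 u2 u3 v1 v2 v3 = true) (l x1 x2 x3 y1 y2 y3 : ℝ)
    (hM : ∀ w1 w2 w3 : ℝ, ev (mp true) l * w1 - c p * w2 - c q * w3 = 0 →
      -(c p : ℝ) * w1 + ev (mp e2) l * w2 - c r * w3 = 0 →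
      -(c q : ℝ) * w1 - c r * w2 + ev (mp e3) l * w3 = 0 → w1 = 0 ∧ w2 = 0 ∧ w3 = 0)
    (hx1 : ev (mp true) l * x1 - c p * x2 - c q * x3 = c u1)
    (hx2 : -(c p : ℝ) * x1 + ev (mp e2) l * x2 - c r * x3 = c u2)
    (hx3 : -(c q : ℝ) * x1 - c r * x2 + ev (mp e3) l * x3 = c u3)
    (hy1 : ev (mp true) l * y1 - c p * y2 - c q * y3 = c v1)
    (hy2 : -(c p : ℝ) * y1 + ev (mp e2) l * y2 - c r * y3 = c v2)
    (hy3 : -(c q : ℝ) * y1 - c r * y2 + ev (mp e3) l * y3 = c v3)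
    (hux : c u1 * x1 + c u2 * x2 + c u3 * x3 = l)
    (hvy : c v1 * y1 + c v2 * y2 + c v3 * y3 = l)
    (hvx : c v1 * x1 + c v2 * x2 + c v3 * x3 = -(c a : ℝ))
    (hs : 1 + x1 + x2 + x3 ≠ 0) (hs' : 1 + y1 + y2 + y3 ≠ 0) :
    p = false ∧ q = false ∧ r = false ∧ l = 1 := by
  have hD := det_ne true e2 e3 p q r l hM
  have hchk := chk_all e2 e3 p q r u1 u2 u3 v1 v2 v3 a
  unfold chk at hchk
  rw [hv] at hchk
  simp only [Bool.not_true, Bool.false_or] at hchk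
  have hform : ∀ (t1 t2 t3 : ℤ) (z1 z2 z3 : ℝ), ev (mp true) l * z1 - c p * z2 - c q * z3 = t1 →
      -(c p : ℝ) * z1 + ev (mp e2) l * z2 - c r * z3 = t2 →
      -(c q : ℝ) * z1 - c r * z2 + ev (mp e3) l * z3 = t3 → ∀ s1 s2 s3 : ℤ,
      ev (form true e2 e3 p q r s1 s2 s3 t1 t2 t3) l
        = ev (Dp true e2 e3 p q r) l * (s1 * z1 + s2 * z2 + s3 * z3) := by
    intro t1 t2 t3 z1 z2 z3 h1 h2 h3 s1 s2 s3
    rw [ev_form, ev_Dp, ← h1, ← h2, ← h3]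
    ring
  have hP1 : ev (P1 true e2 e3 p q r u1 u2 u3) l = 0 := by
    unfold P1
    rw [ev_trim, ev_padd, ev_psc, ev_cons_zero, hform _ _ _ _ _ _ hx1 hx2 hx3, hux]
    push_cast
    ring
  have hP3 : ev (P1 true e2 e3 p q r v1 v2 v3) l = 0 := by
    unfold P1
    rw [ev_trim, ev_padd, ev_psc, ev_cons_zero, hform _ _ _ _ _ _ hy1 hy2 hy3, hvy]
    push_cast
    ring
  have hP2 : ev (P2 true e2 e3 p q r u1 u2 u3 v1 v2 v3 a) l = 0 := by
    unfold P2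
    have hsym : ev (form true e2 e3 p q r (c u1) (c u2) (c u3) (c v1) (c v2) (c v3)) l
        = ev (form true e2 e3 p q r (c v1) (c v2) (c v3) (c u1) (c u2) (c u3)) l := by
      rw [ev_form, ev_form]
      ring
    rw [ev_trim, ev_padd, ev_psc, hsym, hform _ _ _ _ _ _ hx1 hx2 hx3, hvx]
    ring
  have hg := pgcd_ev 10 _ _ l (pgcd_ev 10 _ _ l hP1 hP2) hP3
  have hF := divPow_sound _ _ hchk l hg
  unfold Fp at hF
  rw [ev_pmul, ev_pmul, ev_pmul, ev_padd, ev_padd, hform _ _ _ _ _ _ hx1 hx2 hx3,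
    hform _ _ _ _ _ _ hy1 hy2 hy3] at hF
  have hA : ev (Dp true e2 e3 p q r) l
      + ev (Dp true e2 e3 p q r) l * (((1 : ℤ) : ℝ) * x1 + ((1 : ℤ) : ℝ) * x2 + ((1 : ℤ) : ℝ) * x3)
      ≠ 0 := by
    have e : ev (Dp true e2 e3 p q r) l
      + ev (Dp true e2 e3 p q r) l * (((1 : ℤ) : ℝ) * x1 + ((1 : ℤ) : ℝ) * x2 + ((1 : ℤ) : ℝ) * x3)
      = ev (Dp true e2 e3 p q r) l * (1 + x1 + x2 + x3) := by
      push_cast
      ring
    rw [e]
    exact mul_ne_zero hD hs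
  have hB : ev (Dp true e2 e3 p q r) l
      + ev (Dp true e2 e3 p q r) l * (((1 : ℤ) : ℝ) * y1 + ((1 : ℤ) : ℝ) * y2 + ((1 : ℤ) : ℝ) * y3)
      ≠ 0 := by
    have e : ev (Dp true e2 e3 p q r) l
      + ev (Dp true e2 e3 p q r) l * (((1 : ℤ) : ℝ) * y1 + ((1 : ℤ) : ℝ) * y2 + ((1 : ℤ) : ℝ) * y3)
      = ev (Dp true e2 e3 p q r) l * (1 + y1 + y2 + y3) := by
      push_cast
      ring
    rw [e]
    exact mul_ne_zero hD hs'
  rcases mul_eq_zero.1 hF with h | h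
  · cases p <;> cases q <;> cases r <;> simp [ev] at h ⊢
    linarith
  · exfalso
    rcases mul_eq_zero.1 h with h | h
    · exact hD h
    · rcases mul_eq_zero.1 h with h | h
      · exact hA h
      · exact hB h

end Pool.Agent.Q260.SS
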