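import Mathlib

/-! Verified elimination with univariate integer polynomials, and the numerical core for star sets
of small codimension. -/

namespace Pool.Agent.Q260.SS

/-- Evaluation of a coefficient list. -/
def ev : List ℤ → ℝ → ℝ
  | [], _ => 0
  | a :: p, x => a + x * ev p x

def padd : List ℤ → List ℤ → List ℤ
  | [], q => q
  | a :: p, [] => a :: p
  | a :: p, b :: q => (a + b) :: padd p q

def psc (c : ℤ) (p : List ℤ) : List ℤ := p.map (fun a => c * a)

def pmul : List ℤ → List ℤ → List ℤ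
  | [], _ => []
  | a :: p, q => padd (psc a q) (0 :: pmul p q)

def trim : List ℤ → List ℤ
  | [] => []
  | a :: p => match trim p with
    | [] => if a = 0 then [] else [a]
    | b :: q => a :: b :: q

lemma ev_padd (p q : List ℤ) (x : ℝ) : ev (padd p q) x = ev p x + ev q x := by
  induction p generalizing q with
  | nil => simp [padd, ev]
  | cons a p ih =>
    cases q with
    | nil => simp [padd, ev]
    | cons b q =>
      simp only [padd, ev, ih]
      push_cast
      ring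

lemma ev_psc (c : ℤ) (p : List ℤ) (x : ℝ) : ev (psc c p) x = c * ev p x := by
  induction p with
  | nil => simp [psc, ev]
  | cons a p ih =>
    simp only [psc, List.map_cons, ev] at ih ⊢
    rw [ih]
    push_cast
    ring

lemma ev_pmul (p q : List ℤ) (x : ℝ) : ev (pmul p q) x = ev p x * ev q x := by
  induction p with
  | nil => simp [pmul, ev]
  | cons a p ih =>
    simp only [pmul, ev_padd, ev_psc, ev, ih]
    push_cast
    ring

lemma ev_trim (p : List ℤ) (x : ℝ) : ev (trim p) x = ev p x := by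
  induction p with
  | nil => rfl
  | cons a p ih =>
    simp only [trim]
    rcases h : trim p with _ | ⟨b, q⟩
    · rw [h] at ih
      simp only [ev] at ih
      by_cases ha : a = 0
      · simp [ev, ha, ← ih]
      · simp [ev, ha, ← ih]
    · rw [h] at ih
      simp only [ev] at ih ⊢
      rw [← ih]

lemma ev_shift (m : ℕ) (g : List ℤ) (x : ℝ) : ev (List.replicate m 0 ++ g) x = x ^ m * ev g x := by
  induction m with
  | zero => simp
  | succ m ih =>
    rw [List.replicate_succ, List.cons_append]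
    simp only [ev, ih]
    push_cast
    ring

/-- The last coefficient. -/
def lc (p : List ℤ) : ℤ := p.getLastD 0

/-- Pseudo-remainder. -/
def prem : ℕ → List ℤ → List ℤ → List ℤ
  | 0, f, _ => f
  | n + 1, f, g => if f.length < g.length then f else
    prem n (trim (padd (psc (lc g) f)
      (psc (-(lc f)) (List.replicate (f.length - g.length) 0 ++ g)))) g

lemma prem_ev (n : ℕ) (f g : List ℤ) (x : ℝ) (hg : ev g x = 0) :
    ∃ k : ℕ, ev (prem n f g) x = (lc g : ℝ) ^ k * ev f x := by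
  induction n generalizing f with
  | zero => exact ⟨0, by simp [prem]⟩
  | succ n ih =>
    unfold prem
    by_cases h : f.length < g.length
    · rw [if_pos h]
      exact ⟨0, by simp⟩
    · rw [if_neg h]
      obtain ⟨k, hk⟩ := ih (trim (padd (psc (lc g) f)
        (psc (-(lc f)) (List.replicate (f.length - g.length) 0 ++ g))))
      refine ⟨k + 1, ?_⟩
      rw [hk, ev_trim, ev_padd, ev_psc, ev_psc, ev_shift, hg]
      ring

/-- Euclid's algorithm with pseudo-remainders. -/
def pgcd : ℕ → List ℤ → List ℤ → List ℤ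
  | 0, f, _ => f
  | n + 1, f, g => if g = [] then f else pgcd n g (prem 20 f g)

lemma pgcd_ev (n : ℕ) (f g : List ℤ) (x : ℝ) (hf : ev f x = 0) (hg : ev g x = 0) :
    ev (pgcd n f g) x = 0 := by
  induction n generalizing f g with
  | zero => exact hf
  | succ n ih =>
    unfold pgcd
    by_cases h : g = []
    · rw [if_pos h]
      exact hf
    · rw [if_neg h]
      apply ih _ _ hg
      obtain ⟨k, hk⟩ := prem_ev 20 f g x hg
      rw [hk, hf, mul_zero]

/-- Does `g` divide a power of `F`? -/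
def divPow (F g : List ℤ) : Bool :=
  decide (lc g ≠ 0) && decide (prem 20 (pmul (prem 20 (pmul (prem 20 F g) (prem 20 F g)) g)
    (prem 20 (pmul (prem 20 F g) (prem 20 F g)) g)) g = [])

lemma divPow_sound (F g : List ℤ) (h : divPow F g = true) (x : ℝ) (hg : ev g x = 0) :
    ev F x = 0 := by
  unfold divPow at h
  rw [Bool.and_eq_true] at h
  obtain ⟨h1, h2⟩ := h
  have h1' := of_decide_eq_true h1
  have h2' := of_decide_eq_true h2
  have hl : (lc g : ℝ) ≠ 0 := by exact_mod_cast h1'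
  obtain ⟨k0, hk0⟩ := prem_ev 20 F g x hg
  obtain ⟨k1, hk1⟩ := prem_ev 20 (pmul (prem 20 F g) (prem 20 F g)) g x hg
  obtain ⟨k2, hk2⟩ := prem_ev 20 (pmul (prem 20 (pmul (prem 20 F g) (prem 20 F g)) g)
    (prem 20 (pmul (prem 20 F g) (prem 20 F g)) g)) g x hg
  rw [h2'] at hk2
  simp only [ev] at hk2
  rw [ev_pmul, hk1, ev_pmul, hk0] at hk2
  by_contra hF
  have : (lc g : ℝ) ^ k2 * ((lc g : ℝ) ^ k1 * ((lc g : ℝ) ^ k0 * ev F x * ((lc g : ℝ) ^ k0 * ev F x))
      * ((lc g : ℝ) ^ k1 * ((lc g : ℝ) ^ k0 * ev F x * ((lc g : ℝ) ^ k0 * ev F x)))) ≠ 0 := by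
    positivity
  exact this hk2.symm

/-- `1` or `0`. -/
def c (b : Bool) : ℤ := if b then 1 else 0

/-- `λ` or `1`. -/
def mp (e : Bool) : List ℤ := if e then [0, 1] else [1]

/-- The determinant of `λ - B`. -/
def Dp (e1 e2 e3 p q r : Bool) : List ℤ :=
  padd (pmul (pmul (mp e1) (mp e2)) (mp e3)) (padd (psc (-(c r * c r)) (mp e1))
    (padd (psc (-(c q * c q)) (mp e2)) (padd (psc (-(c p * c p)) (mp e3))
      [-2 * c p * c q * c r])))

def N11 (e2 e3 r : Bool) : List ℤ := padd (pmul (mp e2) (mp e3)) [-(c r * c r)]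
def N22 (e1 e3 q : Bool) : List ℤ := padd (pmul (mp e1) (mp e3)) [-(c q * c q)]
def N33 (e1 e2 p : Bool) : List ℤ := padd (pmul (mp e1) (mp e2)) [-(c p * c p)]
def N12 (e3 p q r : Bool) : List ℤ := padd (psc (c p) (mp e3)) [c q * c r]
def N13 (e2 p q r : Bool) : List ℤ := padd (psc (c q) (mp e2)) [c p * c r]
def N23 (e1 p q r : Bool) : List ℤ := padd (psc (c r) (mp e1)) [c p * c q]

/-- The bilinear form of the adjugate. -/
def form (e1 e2 e3 p q r : Bool) (s1 s2 s3 t1 t2 t3 : ℤ) : List ℤ :=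
  padd (psc (s1 * t1) (N11 e2 e3 r)) (padd (psc (s2 * t2) (N22 e1 e3 q))
    (padd (psc (s3 * t3) (N33 e1 e2 p)) (padd (psc (s1 * t2 + s2 * t1) (N12 e3 p q r))
      (padd (psc (s1 * t3 + s3 * t1) (N13 e2 p q r)) (psc (s2 * t3 + s3 * t2) (N23 e1 p q r))))))

/-- The nonvanishing product. -/
def Fp (e1 e2 e3 p q r u1 u2 u3 v1 v2 v3 : Bool) : List ℤ :=
  pmul (if p || q || r then [1] else [-1, 1]) (pmul (Dp e1 e2 e3 p q r)
    (pmul (padd (Dp e1 e2 e3 p q r) (form e1 e2 e3 p q r 1 1 1 (c u1) (c u2) (c u3)))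
      (padd (Dp e1 e2 e3 p q r) (form e1 e2 e3 p q r 1 1 1 (c v1) (c v2) (c v3)))))

/-- The three vanishing polynomials. -/
def P1 (e1 e2 e3 p q r u1 u2 u3 : Bool) : List ℤ :=
  trim (padd (form e1 e2 e3 p q r (c u1) (c u2) (c u3) (c u1) (c u2) (c u3))
    (psc (-1) (0 :: Dp e1 e2 e3 p q r)))

def P2 (e1 e2 e3 p q r u1 u2 u3 v1 v2 v3 a : Bool) : List ℤ :=
  trim (padd (form e1 e2 e3 p q r (c u1) (c u2) (c u3) (c v1) (c v2) (c v3))
    (psc (c a) (Dp e1 e2 e3 p q r)))

/-- The data are consistent. -/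
def valid (e2 e3 p q r u1 u2 u3 v1 v2 v3 : Bool) : Bool :=
  (e2 || (!p && !r && !u2 && !v2)) && (e3 || (!q && !r && !u3 && !v3)) && (e2 || !e3) &&
    (u1 || u2 || u3) && (v1 || v2 || v3)

def chk (e2 e3 p q r u1 u2 u3 v1 v2 v3 a : Bool) : Bool :=
  !valid e2 e3 p q r u1 u2 u3 v1 v2 v3 ||
    divPow (Fp true e2 e3 p q r u1 u2 u3 v1 v2 v3)
      (pgcd 10 (pgcd 10 (P1 true e2 e3 p q r u1 u2 u3)
        (P2 true e2 e3 p q r u1 u2 u3 v1 v2 v3 a)) (P1 true e2 e3 p q r v1 v2 v3))

lemma chk_all : ∀ e2 e3 p q r u1 u2 u3 v1 v2 v3 a : Bool,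
    chk e2 e3 p q r u1 u2 u3 v1 v2 v3 a = true := by decide +kernel

end Pool.Agent.Q260.SS
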