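import Pool.Agent.Q260.SS.Core

/-! Star sets and main vertices: definitions and the bridge to coordinates. -/

namespace Pool.Agent.Q260.SS

open Finset

section defs

open Classical in
/-- The eigenspace `E_G(l) = ker (A_G - l I)`. -/
noncomputable def Eig {V : Type} [Fintype V] (G : SimpleGraph V) (l : ℝ) : Submodule ℝ (V → ℝ) :=
  Module.End.eigenspace (Matrix.toLin' (G.adjMatrix ℝ)) l

/-- `l` is a main eigenvalue: its eigenspace is not orthogonal to the all-ones vector. -/
def IsMainEig {V : Type} [Fintype V] (G : SimpleGraph V) (l : ℝ) : Prop :=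
  ∃ x ∈ Eig G l, ∑ i, x i ≠ 0

open Classical in
/-- `X` is a star set for `l`: `|X|` is the dimension of the eigenspace and `l` is not an
eigenvalue of the subgraph induced by the complement of `X`. -/
def IsStarSet {V : Type} [Fintype V] (G : SimpleGraph V) (l : ℝ) (X : Finset V) : Prop :=
  X.card = Module.finrank ℝ (Eig G l) ∧ Eig (G.induce {w | w ∉ X}) l = ⊥

open Classical in
/-- The `l`-main vertices of `X`: those `v ∈ X` for which `l` is a main eigenvalue of the subgraph
induced by the complement of `X` together with `v`. -/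
noncomputable def mainVerts {V : Type} [Fintype V] (G : SimpleGraph V) (l : ℝ) (X : Finset V) :
    Finset V :=
  X.filter fun v => IsMainEig (G.induce {w | w ∉ X ∨ w = v}) l

end defs

variable {V : Type} [Fintype V] {G : SimpleGraph V} {l : ℝ}

open Classical in
/-- The sum over the neighbours. -/
noncomputable def nb (G : SimpleGraph V) (z : V → ℝ) (i : V) : ℝ :=
  ∑ j, if G.Adj i j then z j else 0

lemma mem_Eig (x : V → ℝ) : x ∈ Eig G l ↔ ∀ i, nb G x i = l * x i := by
  classical
  unfold Eig nb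
  rw [Module.End.mem_eigenspace_iff, Matrix.toLin'_apply]
  constructor
  · intro h i
    have := congrFun h i
    rw [Pi.smul_apply, smul_eq_mul] at this
    rw [← this, SimpleGraph.adjMatrix_mulVec_apply, ← Finset.sum_filter]
    apply Finset.sum_congr _ (fun _ _ => rfl)
    ext j
    simp
  · intro h
    ext i
    rw [Pi.smul_apply, smul_eq_mul, ← h i, SimpleGraph.adjMatrix_mulVec_apply, ← Finset.sum_filter]
    apply Finset.sum_congr _ (fun _ _ => rfl)
    ext j
    simp

/-- `z` vanishes outside `S` and satisfies the eigenvalue equation on `S`. -/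
def EigOn (G : SimpleGraph V) (l : ℝ) (S : Set V) (z : V → ℝ) : Prop :=
  (∀ i, i ∉ S → z i = 0) ∧ ∀ i ∈ S, nb G z i = l * z i

lemma nb_induce (S : Set V) [Fintype S] (z : V → ℝ) (hz : ∀ i, i ∉ S → z i = 0) (i : S) :
    nb (G.induce S) (fun j : S => z j) i = nb G z i := by
  classical
  unfold nb
  have h1 : ∑ j : V, (if G.Adj (i : V) j then z j else 0)
      = ∑ j ∈ Finset.univ.filter (fun j => j ∈ S), (if G.Adj (i : V) j then z j else 0) := by
    rw [Finset.sum_filter]
    apply Finset.sum_congr rfl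
    intro j _
    by_cases hj : j ∈ S
    · rw [if_pos hj]
    · rw [if_neg hj, hz j hj]
      simp
  rw [h1]
  rw [← Finset.sum_subtype_of_mem (p := fun j => j ∈ S)
    (f := fun j => if G.Adj (i : V) j then z j else 0) (by
      intro x hx
      exact (Finset.mem_filter.1 hx).2)]
  apply Finset.sum_bij (fun j _ => (⟨j.1, j.2⟩ : {x // x ∈ S}))
  · intro j _
    simp
  · intro a _ b _ h
    exact Subtype.ext (Subtype.ext_iff.1 h)
  · intro b _
    exact ⟨⟨b.1, b.2⟩, Finset.mem_univ _, rfl⟩
  · intro j _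
    simp [SimpleGraph.comap_adj]

lemma sum_ext (S : Set V) [Fintype S] (z : V → ℝ) (hz : ∀ i, i ∉ S → z i = 0) :
    ∑ j : S, z j = ∑ j, z j := by
  classical
  have h1 : ∑ j : V, z j = ∑ j ∈ Finset.univ.filter (fun j => j ∈ S), z j := by
    rw [Finset.sum_filter]
    apply Finset.sum_congr rfl
    intro j _
    by_cases hj : j ∈ S
    · rw [if_pos hj]
    · rw [if_neg hj, hz j hj]
  rw [h1, ← Finset.sum_subtype_of_mem (p := fun j => j ∈ S) (f := z) (by
      intro x hx
      exact (Finset.mem_filter.1 hx).2)]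
  apply Finset.sum_bij (fun j _ => (⟨j.1, by simp⟩ : {x // x ∈ S} ))
  · intro j _
    simp
  · intro a _ b _ h
    exact Subtype.ext (Subtype.ext_iff.1 h)
  · intro b _
    exact ⟨⟨b.1, by simp⟩, Finset.mem_univ _, rfl⟩
  · intro j _
    rfl

lemma nb_sub (z w : V → ℝ) (i : V) : nb G (fun j => z j - w j) i = nb G z i - nb G w i := by
  classical
  unfold nb
  rw [← Finset.sum_sub_distrib]
  apply Finset.sum_congr rfl
  intro j _
  split_ifs <;> ring

lemma nb_smul (a : ℝ) (z : V → ℝ) (i : V) : nb G (fun j => a * z j) i = a * nb G z i := by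
  classical
  unfold nb
  rw [Finset.mul_sum]
  apply Finset.sum_congr rfl
  intro j _
  split_ifs <;> ring

lemma isMain_induce (S : Set V) (inst : Fintype S) :
    (@IsMainEig S inst (G.induce S) l) ↔ ∃ z, EigOn G l S z ∧ ∑ i, z i ≠ 0 := by
  classical
  constructor
  · rintro ⟨x, hx, hs⟩
    rw [mem_Eig] at hx
    have hz : ∀ i, i ∉ S → (fun i => if h : i ∈ S then x ⟨i, h⟩ else 0 : V → ℝ) i = 0 := by
      intro i hi
      simp [hi]
    have hzx : (fun j : S => (fun i => if h : i ∈ S then x ⟨i, h⟩ else 0 : V → ℝ) j) = x := by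
      ext j
      simp
    refine ⟨fun i => if h : i ∈ S then x ⟨i, h⟩ else 0, ⟨hz, ?_⟩, ?_⟩
    · intro i hi
      have h1 := nb_induce (G := G) S _ hz ⟨i, hi⟩
      rw [hzx] at h1
      rw [← h1, hx]
      simp [hi]
    · rw [← sum_ext S _ hz, hzx]
      exact hs
  · rintro ⟨z, ⟨hz, he⟩, hs⟩
    refine ⟨fun j => z j, ?_, ?_⟩
    · rw [mem_Eig]
      intro i
      rw [nb_induce S z hz i]
      exact he i i.2
    · rw [sum_ext S z hz]
      exact hs

lemma eig_bot (S : Set V) (inst : Fintype S) :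
    (@Eig S inst (G.induce S) l) = ⊥ ↔ ∀ z, EigOn G l S z → z = 0 := by
  classical
  constructor
  · rintro h z ⟨hz, he⟩
    have h1 : (fun j : S => z j) ∈ Eig (G.induce S) l := by
      rw [mem_Eig]
      intro i
      rw [nb_induce S z hz i]
      exact he i i.2
    rw [h, Submodule.mem_bot] at h1
    ext i
    by_cases hi : i ∈ S
    · exact congrFun h1 ⟨i, hi⟩
    · exact hz i hi
  · intro h
    rw [Submodule.eq_bot_iff]
    intro x hx
    rw [mem_Eig] at hx
    have hz : ∀ i, i ∉ S → (fun i => if h : i ∈ S then x ⟨i, h⟩ else 0 : V → ℝ) i = 0 := by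
      intro i hi
      simp [hi]
    have hzx : (fun j : S => (fun i => if h : i ∈ S then x ⟨i, h⟩ else 0 : V → ℝ) j) = x := by
      ext j
      simp
    have h2 := h (fun i => if h : i ∈ S then x ⟨i, h⟩ else 0) ⟨hz, by
      intro i hi
      have h1 := nb_induce (G := G) S _ hz ⟨i, hi⟩
      rw [hzx] at h1
      rw [← h1, hx]
      simp [hi]⟩
    rw [← hzx, h2]
    rfl

/-- The restriction of the eigenspace to `X`. -/
noncomputable def restr (G : SimpleGraph V) (l : ℝ) (X : Finset V) : Eig G l →ₗ[ℝ] (X → ℝ) where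
  toFun x := fun j => x.1 j
  map_add' _ _ := rfl
  map_smul' _ _ := rfl

lemma restr_inj {X : Finset V} (h : ∀ z, EigOn G l {w | w ∉ X} z → z = 0) :
    Function.Injective (restr G l X) := by
  rw [← LinearMap.ker_eq_bot, Submodule.eq_bot_iff]
  rintro ⟨x, hx⟩ h0
  rw [LinearMap.mem_ker] at h0
  apply Subtype.ext
  apply h
  refine ⟨?_, fun i _ => (mem_Eig x).1 hx i⟩
  intro i hi
  have hi' : i ∈ X := by
    by_contra hc
    exact hi hc
  exact congrFun h0 ⟨i, hi'⟩

/-- A star set from coordinates. -/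
theorem isStarSet_of {X : Finset V} (h : ∀ z, EigOn G l {w | w ∉ X} z → z = 0)
    (hx : ∀ g : V → ℝ, ∃ x, (∀ i, nb G x i = l * x i) ∧ ∀ i ∈ X, x i = g i) :
    IsStarSet G l X := by
  classical
  refine ⟨?_, (eig_bot _ _).2 h⟩
  have hsurj : Function.Surjective (restr G l X) := by
    intro g
    obtain ⟨x, hx1, hx2⟩ := hx (fun i => if hi : i ∈ X then g ⟨i, hi⟩ else 0)
    refine ⟨⟨x, (mem_Eig x).2 hx1⟩, ?_⟩
    ext j
    have := hx2 j j.2
    simp only [j.2, dif_pos] at this
    exact this
  have e := LinearEquiv.ofBijective (restr G l X) ⟨restr_inj h, hsurj⟩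
  rw [e.finrank_eq, Module.finrank_fintype_fun_eq_card, Fintype.card_coe]

/-- The dual basis of a star set. -/
theorem IsStarSet.basis {X : Finset V} (h : IsStarSet G l X) :
    (∀ z, EigOn G l {w | w ∉ X} z → z = 0) ∧
    ∀ v ∈ X, ∃ x : V → ℝ, (∀ i, nb G x i = l * x i) ∧ x v = 1 ∧ ∀ w ∈ X, w ≠ v → x w = 0 := by
  classical
  obtain ⟨h1, h2⟩ := h
  have h3 := (eig_bot _ _).1 h2
  refine ⟨h3, ?_⟩
  intro v hv
  have hsurj : Function.Surjective (restr G l X) := by
    have hd : Module.finrank ℝ (Eig G l) = Module.finrank ℝ (X → ℝ) := by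
      rw [← h1, Module.finrank_fintype_fun_eq_card, Fintype.card_coe]
    exact (LinearMap.injective_iff_surjective_of_finrank_eq_finrank hd).1 (restr_inj h3)
  obtain ⟨x, hx⟩ := hsurj (fun j => if (j : V) = v then 1 else 0)
  refine ⟨x.1, (mem_Eig _).1 x.2, ?_, ?_⟩
  · have := congrFun hx ⟨v, hv⟩
    simpa [restr] using this
  · intro w hw hwv
    have := congrFun hx ⟨w, hw⟩
    simpa [restr, hwv] using this

/-- For a main vertex the dual basis vector has nonzero sum. -/
theorem sum_ne_of_main {X : Finset V} (h3 : ∀ z, EigOn G l {w | w ∉ X} z → z = 0) {v : V}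
    (hv : v ∈ mainVerts G l X) (x : V → ℝ) (hx : ∀ i, nb G x i = l * x i) (hxv : x v = 1)
    (hxw : ∀ w ∈ X, w ≠ v → x w = 0) : ∑ i, x i ≠ 0 := by
  classical
  unfold mainVerts at hv
  rw [Finset.mem_filter] at hv
  obtain ⟨hvX, hm⟩ := hv
  obtain ⟨z, ⟨hz, he⟩, hs⟩ := (isMain_induce _ _).1 hm
  have h0 := h3 (fun j => z j - z v * x j) ⟨by
    intro i hi
    have hi' : i ∈ X := by
      by_contra hc
      exact hi hc
    by_cases hiv : i = v
    · simp only [hiv, hxv]
      ring
    · have h1 : z i = 0 := hz i (by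
        rintro (h | h)
        · exact h hi'
        · exact hiv h)
      simp only [h1, hxw i hi' hiv]
      ring, by
    intro i hi
    rw [nb_sub, nb_smul, hx i, he i (Or.inl hi)]
    ring⟩
  intro hcon
  apply hs
  have h4 : ∀ j, z j = z v * x j := by
    intro j
    have := congrFun h0 j
    simp only [Pi.zero_apply] at this
    linarith
  calc ∑ i, z i = ∑ i, z v * x i := Finset.sum_congr rfl (fun i _ => h4 i)
    _ = 0 := by rw [← Finset.mul_sum, hcon, mul_zero]

end Pool.Agent.Q260.SS
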