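import Pool.Agent.Q260.SS.Star

/-! At most one main vertex in a star set of codimension at most three. -/

namespace Pool.Agent.Q260.SS

open Finset

section bools

variable {V : Type} {G : SimpleGraph V}

open Classical in
/-- Adjacency as a boolean. -/
noncomputable def bb (G : SimpleGraph V) (i j : V) : Bool := decide (G.Adj i j)

lemma bb_comm (i j : V) : bb G i j = bb G j i := by
  unfold bb
  simp [G.adj_comm i j]

lemma bb_self (i : V) : bb G i i = false := by
  unfold bb
  simp

lemma bb_true {i j : V} : bb G i j = true ↔ G.Adj i j := by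
  unfold bb
  simp

end bools

variable {V : Type} [Fintype V] {G : SimpleGraph V} {l : ℝ}

lemma nb_eq (z : V → ℝ) (i : V) : nb G z i = ∑ j, (c (bb G i j) : ℝ) * z j := by
  classical
  unfold nb
  apply Finset.sum_congr rfl
  intro j _
  by_cases h : G.Adj i j
  · rw [if_pos h, bb_true.2 h]
    simp [c]
  · rw [if_neg h]
    have : bb G i j = false := by
      rw [← Bool.not_eq_true, bb_true]
      exact h
    rw [this]
    simp [c]

open Classical in
lemma nb_split {X : Finset V} {u : V} (hu : u ∈ X) (x : V → ℝ) (hxu : x u = 1)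
    (hxw : ∀ w ∈ X, w ≠ u → x w = 0) (i : V) :
    nb G x i = ∑ j ∈ Xᶜ, (c (bb G i j) : ℝ) * x j + c (bb G i u) := by
  rw [nb_eq, ← Finset.sum_compl_add_sum X]
  congr 1
  rw [Finset.sum_eq_single u]
  · rw [hxu, mul_one]
  · intro b hb hbu
    rw [hxw b hb hbu, mul_zero]
  · intro h
    exact absurd hu h

open Classical in
lemma sum_split {X : Finset V} {u : V} (hu : u ∈ X) (x : V → ℝ) (hxu : x u = 1)
    (hxw : ∀ w ∈ X, w ≠ u → x w = 0) : ∑ i, x i = ∑ j ∈ Xᶜ, x j + 1 := by
  rw [← Finset.sum_compl_add_sum X]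
  congr 1
  rw [Finset.sum_eq_single u]
  · exact hxu
  · intro b hb hbu
    exact hxw b hb hbu
  · intro h
    exact absurd hu h

open Classical in
/-- A vector supported on the complement of `X`. -/
lemma nb_supp {X : Finset V} (z : V → ℝ) (hz : ∀ i ∈ X, z i = 0) (i : V) :
    nb G z i = ∑ j ∈ Xᶜ, (c (bb G i j) : ℝ) * z j := by
  rw [nb_eq, ← Finset.sum_compl_add_sum X]
  have : ∑ j ∈ X, (c (bb G i j) : ℝ) * z j = 0 := by
    apply Finset.sum_eq_zero
    intro j hj
    rw [hz j hj, mul_zero]
  rw [this, add_zero]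

/-- If two vertices lie in a star set of a connected graph, each has a neighbour outside. -/
lemma exists_nbr (hG : G.Connected) {X : Finset V}
    (h3 : ∀ z, EigOn G l {w | w ∉ X} z → z = 0) {u v : V} (hu : u ∈ X) (huv : u ≠ v)
    (x : V → ℝ) (hx : ∀ i, nb G x i = l * x i) (hxu : x u = 1)
    (hxw : ∀ w ∈ X, w ≠ u → x w = 0) : ∃ j, j ∉ X ∧ G.Adj j u := by
  classical
  by_contra hcon
  push Not at hcon
  have hbu : ∀ j, j ∉ X → (c (bb G j u) : ℝ) = 0 := by
    intro j hj
    have : bb G j u = false := by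
      rw [← Bool.not_eq_true, bb_true]
      exact hcon j hj
    rw [this]
    simp [c]
  have h0 := h3 (fun j => if j ∈ X then 0 else x j) ⟨by
    intro i hi
    have : i ∈ X := by
      by_contra hc
      exact hi hc
    simp [this], by
    intro i hi
    have hi' : i ∉ X := hi
    rw [nb_supp (X := X) _ (fun j hj => by simp [hj])]
    have h1 := nb_split (G := G) hu x hxu hxw i
    rw [hbu i hi', add_zero, hx] at h1
    simp only [hi', if_false]
    rw [h1]
    apply Finset.sum_congr rfl
    intro j hj
    rw [Finset.mem_compl] at hj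
    simp [hj]⟩
  have hx0 : ∀ j, j ∉ X → x j = 0 := by
    intro j hj
    have := congrFun h0 j
    simpa [hj] using this
  have hsingle : ∀ j, j ≠ u → x j = 0 := by
    intro j hj
    by_cases hjX : j ∈ X
    · exact hxw j hjX hj
    · exact hx0 j hjX
  have hsum : ∀ i, nb G x i = c (bb G i u) := by
    intro i
    rw [nb_eq, Finset.sum_eq_single u]
    · rw [hxu, mul_one]
    · intro b _ hb
      rw [hsingle b hb, mul_zero]
    · simp
  have hl : l = 0 := by
    have := hx u
    rw [hsum, bb_self, hxu] at this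
    simp only [c] at this
    push_cast at this
    simp at this
    exact this.symm
  have hiso : ∀ i, ¬ G.Adj i u := by
    intro i hi
    have := hx i
    rw [hsum, hl, zero_mul, bb_true.2 hi] at this
    simp [c] at this
  have hnt : Nontrivial V := ⟨u, v, huv⟩
  obtain ⟨w, hw⟩ := hG.preconnected.exists_adj_of_nontrivial u
  exact hiso w hw.symm

/-- The data of a dual basis vector. -/
structure Dual (G : SimpleGraph V) (l : ℝ) (X : Finset V) (u : V) (x : V → ℝ) : Prop where
  mem : u ∈ X
  eig : ∀ i, nb G x i = l * x i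
  one : x u = 1
  zero : ∀ w ∈ X, w ≠ u → x w = 0
  sum : ∑ i, x i ≠ 0

open Classical in
lemma Dual.eqn {X : Finset V} {u : V} {x : V → ℝ} (h : Dual G l X u x) (i : V) :
    ∑ j ∈ Xᶜ, (c (bb G i j) : ℝ) * x j + c (bb G i u) = l * x i := by
  rw [← nb_split h.mem x h.one h.zero i, h.eig]

open Classical in
lemma Dual.sum' {X : Finset V} {u : V} {x : V → ℝ} (h : Dual G l X u x) :
    ∑ j ∈ Xᶜ, x j + 1 ≠ 0 := by
  rw [← sum_split h.mem x h.one h.zero]
  exact h.sum

lemma c_false : c false = 0 := rfl

lemma ev_mp_true : ev (mp true) l = l := by simp [mp, ev]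

lemma ev_mp_false : ev (mp false) l = 1 := by simp [mp, ev]

open Classical in
/-- Codimension three. -/
lemma case3 {X : Finset V} (h3 : ∀ z, EigOn G l {w | w ∉ X} z → z = 0) {u v : V} (huv : u ≠ v)
    {x y : V → ℝ} (hx : Dual G l X u x) (hy : Dual G l X v y) {p q r : V} (hpq : p ≠ q)
    (hpr : p ≠ r) (hqr : q ≠ r) (hT : Xᶜ = {p, q, r}) (hu : ∃ j, j ∉ X ∧ G.Adj j u)
    (hv : ∃ j, j ∉ X ∧ G.Adj j v) :
    l = 1 ∧ ∀ i j, i ∉ X → j ∉ X → ¬ G.Adj i j := by
  have hsum : ∀ f : V → ℝ, ∑ j ∈ Xᶜ, f j = f p + (f q + f r) := by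
    intro f
    rw [hT, Finset.sum_insert (by simp [hpq, hpr]), Finset.sum_insert (by simp [hqr]),
      Finset.sum_singleton]
  have hmem : ∀ j, j ∉ X ↔ j = p ∨ j = q ∨ j = r := by
    intro j
    rw [← Finset.mem_compl, hT]
    simp
  have hpX : p ∉ X := (hmem p).2 (Or.inl rfl)
  have hqX : q ∉ X := (hmem q).2 (Or.inr (Or.inl rfl))
  have hrX : r ∉ X := (hmem r).2 (Or.inr (Or.inr rfl))
  have key := core true true (bb G p q) (bb G p r) (bb G q r) (bb G p u) (bb G q u) (bb G r u)
    (bb G p v) (bb G q v) (bb G r v) (bb G v u) ?_ l (x p) (x q) (x r) (y p) (y q) (y r)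
    ?_ ?_ ?_ ?_ ?_ ?_ ?_ ?_ ?_ ?_ ?_ ?_
  · obtain ⟨a1, a2, a3, a4⟩ := key
    refine ⟨a4, ?_⟩
    intro i j hi hj hij
    rw [hmem] at hi hj
    rw [← bb_true] at hij
    rcases hi with rfl | rfl | rfl <;> rcases hj with rfl | rfl | rfl
    · rw [bb_self] at hij; exact Bool.false_ne_true hij
    · rw [a1] at hij; exact Bool.false_ne_true hij
    · rw [a2] at hij; exact Bool.false_ne_true hij
    · rw [bb_comm, a1] at hij; exact Bool.false_ne_true hij
    · rw [bb_self] at hij; exact Bool.false_ne_true hij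
    · rw [a3] at hij; exact Bool.false_ne_true hij
    · rw [bb_comm, a2] at hij; exact Bool.false_ne_true hij
    · rw [bb_comm, a3] at hij; exact Bool.false_ne_true hij
    · rw [bb_self] at hij; exact Bool.false_ne_true hij
  · obtain ⟨j, hj, hju⟩ := hu
    obtain ⟨k, hk, hkv⟩ := hv
    rw [hmem] at hj hk
    rw [← bb_true] at hju hkv
    rcases hj with rfl | rfl | rfl <;> rcases hk with rfl | rfl | rfl <;>
      simp [valid, hju, hkv]
  · intro w1 w2 w3 e1 e2 e3
    rw [ev_mp_true] at e1 e2 e3
    have h0 := h3 (fun i => if i = p then w1 else if i = q then w2 else if i = r then w3 else 0) ⟨by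
      intro i hi
      have hi' : ¬ i ∉ X := hi
      rw [hmem] at hi'
      push Not at hi'
      simp [hi'.1, hi'.2.1, hi'.2.2], by
      intro i hi
      have hi' : i ∉ X := hi
      rw [nb_supp (X := X) _ (fun j hj => by
        have hj' : ¬ j ∉ X := fun h => h hj
        rw [hmem] at hj'
        push Not at hj'
        simp [hj'.1, hj'.2.1, hj'.2.2]), hsum]
      simp only [if_true, hpq.symm, hpr.symm, hqr.symm, if_false]
      rw [hmem] at hi'
      rcases hi' with rfl | rfl | rfl
      · rw [bb_self, c_false]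
        simp only [if_true]
        push_cast
        linarith
      · rw [bb_self, c_false, bb_comm i p]
        simp only [if_true, hpq.symm, if_false]
        push_cast
        linarith
      · rw [bb_self, c_false, bb_comm i p, bb_comm i q]
        simp only [if_true, hpr.symm, hqr.symm, if_false]
        push_cast
        linarith⟩
    refine ⟨?_, ?_, ?_⟩
    · simpa using congrFun h0 p
    · simpa [hpq.symm] using congrFun h0 q
    · simpa [hpr.symm, hqr.symm] using congrFun h0 r
  · have := hx.eqn p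
    rw [hsum, bb_self, c_false] at this
    rw [ev_mp_true]
    push_cast at this
    linarith
  · have := hx.eqn q
    rw [hsum, bb_self, c_false, bb_comm q p] at this
    rw [ev_mp_true]
    push_cast at this
    linarith
  · have := hx.eqn r
    rw [hsum, bb_self, c_false, bb_comm r p, bb_comm r q] at this
    rw [ev_mp_true]
    push_cast at this
    linarith
  · have := hy.eqn p
    rw [hsum, bb_self, c_false] at this
    rw [ev_mp_true]
    push_cast at this
    linarith
  · have := hy.eqn q
    rw [hsum, bb_self, c_false, bb_comm q p] at this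
    rw [ev_mp_true]
    push_cast at this
    linarith
  · have := hy.eqn r
    rw [hsum, bb_self, c_false, bb_comm r p, bb_comm r q] at this
    rw [ev_mp_true]
    push_cast at this
    linarith
  · have := hx.eqn u
    rw [hsum, bb_self, c_false, hx.one, bb_comm u p, bb_comm u q, bb_comm u r] at this
    push_cast at this
    linarith
  · have := hy.eqn v
    rw [hsum, bb_self, c_false, hy.one, bb_comm v p, bb_comm v q, bb_comm v r] at this
    push_cast at this
    linarith
  · have := hx.eqn v
    rw [hsum, hx.zero v hy.mem huv.symm, bb_comm v p, bb_comm v q, bb_comm v r] at this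
    linarith
  · have := hx.sum'
    rw [hsum] at this
    intro h
    exact this (by linarith)
  · have := hy.sum'
    rw [hsum] at this
    intro h
    exact this (by linarith)

open Classical in
/-- Codimension two. -/
lemma case2 {X : Finset V} (h3 : ∀ z, EigOn G l {w | w ∉ X} z → z = 0) {u v : V} (huv : u ≠ v)
    {x y : V → ℝ} (hx : Dual G l X u x) (hy : Dual G l X v y) {p q : V} (hpq : p ≠ q)
    (hT : Xᶜ = {p, q}) (hu : ∃ j, j ∉ X ∧ G.Adj j u)
    (hv : ∃ j, j ∉ X ∧ G.Adj j v) :
    l = 1 ∧ ∀ i j, i ∉ X → j ∉ X → ¬ G.Adj i j := by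
  have hsum : ∀ f : V → ℝ, ∑ j ∈ Xᶜ, f j = f p + f q := by
    intro f
    rw [hT, Finset.sum_insert (by simp [hpq]), Finset.sum_singleton]
  have hmem : ∀ j, j ∉ X ↔ j = p ∨ j = q := by
    intro j
    rw [← Finset.mem_compl, hT]
    simp
  have key := core true false (bb G p q) false false (bb G p u) (bb G q u) false
    (bb G p v) (bb G q v) false (bb G v u) ?_ l (x p) (x q) 0 (y p) (y q) 0
    ?_ ?_ ?_ ?_ ?_ ?_ ?_ ?_ ?_ ?_ ?_ ?_
  · obtain ⟨a1, -, -, a4⟩ := key
    refine ⟨a4, ?_⟩
    intro i j hi hj hij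
    rw [hmem] at hi hj
    rw [← bb_true] at hij
    rcases hi with rfl | rfl <;> rcases hj with rfl | rfl
    · rw [bb_self] at hij; exact Bool.false_ne_true hij
    · rw [a1] at hij; exact Bool.false_ne_true hij
    · rw [bb_comm, a1] at hij; exact Bool.false_ne_true hij
    · rw [bb_self] at hij; exact Bool.false_ne_true hij
  · obtain ⟨j, hj, hju⟩ := hu
    obtain ⟨k, hk, hkv⟩ := hv
    rw [hmem] at hj hk
    rw [← bb_true] at hju hkv
    rcases hj with rfl | rfl <;> rcases hk with rfl | rfl <;>
      simp [valid, hju, hkv]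
  · intro w1 w2 w3 e1 e2 e3
    rw [ev_mp_true] at e1 e2
    rw [ev_mp_false] at e3
    simp only [c_false] at e1 e2 e3
    push_cast at e1 e2 e3
    have h0 := h3 (fun i => if i = p then w1 else if i = q then w2 else 0) ⟨by
      intro i hi
      have hi' : ¬ i ∉ X := hi
      rw [hmem] at hi'
      push Not at hi'
      simp [hi'.1, hi'.2], by
      intro i hi
      have hi' : i ∉ X := hi
      rw [nb_supp (X := X) _ (fun j hj => by
        have hj' : ¬ j ∉ X := fun h => h hj
        rw [hmem] at hj'
        push Not at hj'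
        simp [hj'.1, hj'.2]), hsum]
      simp only [if_true, hpq.symm, if_false]
      rw [hmem] at hi'
      rcases hi' with rfl | rfl
      · rw [bb_self, c_false]
        simp only [if_true]
        push_cast
        linarith
      · rw [bb_self, c_false, bb_comm i p]
        simp only [if_true, hpq.symm, if_false]
        push_cast
        linarith⟩
    refine ⟨?_, ?_, ?_⟩
    · simpa using congrFun h0 p
    · simpa [hpq.symm] using congrFun h0 q
    · linarith
  · have := hx.eqn p
    rw [hsum, bb_self, c_false] at this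
    rw [ev_mp_true, c_false]
    push_cast at this ⊢
    linarith
  · have := hx.eqn q
    rw [hsum, bb_self, c_false, bb_comm q p] at this
    rw [ev_mp_true, c_false]
    push_cast at this ⊢
    linarith
  · rw [c_false, ev_mp_false]
    push_cast
    ring
  · have := hy.eqn p
    rw [hsum, bb_self, c_false] at this
    rw [ev_mp_true, c_false]
    push_cast at this ⊢
    linarith
  · have := hy.eqn q
    rw [hsum, bb_self, c_false, bb_comm q p] at this
    rw [ev_mp_true, c_false]
    push_cast at this ⊢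
    linarith
  · rw [c_false, ev_mp_false]
    push_cast
    ring
  · have := hx.eqn u
    rw [hsum, bb_self, c_false, hx.one, bb_comm u p, bb_comm u q] at this
    push_cast at this
    linarith
  · have := hy.eqn v
    rw [hsum, bb_self, c_false, hy.one, bb_comm v p, bb_comm v q] at this
    push_cast at this
    linarith
  · have := hx.eqn v
    rw [hsum, hx.zero v hy.mem huv.symm, bb_comm v p, bb_comm v q] at this
    linarith
  · have := hx.sum'
    rw [hsum] at this
    intro h
    exact this (by linarith)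
  · have := hy.sum'
    rw [hsum] at this
    intro h
    exact this (by linarith)

open Classical in
/-- Codimension one. -/
lemma case1 {X : Finset V} {u v : V} (huv : u ≠ v)
    {x y : V → ℝ} (hx : Dual G l X u x) (hy : Dual G l X v y) {p : V}
    (hT : Xᶜ = {p}) (hu : ∃ j, j ∉ X ∧ G.Adj j u) (hv : ∃ j, j ∉ X ∧ G.Adj j v) : False := by
  have hsum : ∀ f : V → ℝ, ∑ j ∈ Xᶜ, f j = f p := by
    intro f
    rw [hT, Finset.sum_singleton]
  have hmem : ∀ j, j ∉ X ↔ j = p := by
    intro j
    rw [← Finset.mem_compl, hT]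
    simp
  obtain ⟨j, hj, hju⟩ := hu
  obtain ⟨k, hk, hkv⟩ := hv
  rw [hmem] at hj hk
  subst hj
  subst hk
  have c1 : (c (bb G k u) : ℝ) = 1 := by rw [bb_true.2 hju]; simp [c]
  have c2 : (c (bb G k v) : ℝ) = 1 := by rw [bb_true.2 hkv]; simp [c]
  have e1 := hx.eqn k
  have e2 := hx.eqn u
  have e3 := hx.eqn v
  have e4 := hx.sum'
  rw [hsum, bb_self, c_false, c1] at e1
  rw [hsum, bb_self, c_false, bb_comm u k, c1, hx.one] at e2
  rw [hsum, bb_comm v k, c2, hx.zero v hy.mem huv.symm] at e3
  rw [hsum] at e4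
  push_cast at e1 e2
  have hl : x k = l := by linarith
  rw [hl] at e1 e3 e4
  rcases Bool.eq_false_or_eq_true (bb G v u) with h | h
  · rw [h] at e3
    simp only [c] at e3
    push_cast at e3
    simp at e3
    apply e4
    linarith
  · rw [h, c_false] at e3
    push_cast at e3
    have : l = 0 := by linarith
    rw [this] at e1
    norm_num at e1

open Classical in
/-- The exceptional case. -/
lemma special (hG : G.Connected) {X : Finset V} {u v : V} (huv : u ≠ v)
    {x : V → ℝ} (hx : Dual G l X u x) (hv : v ∈ X) (hl : l = 1)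
    (hind : ∀ i j, i ∉ X → j ∉ X → ¬ G.Adj i j) : False := by
  subst hl
  have hbf : ∀ i j, i ∉ X → j ∉ X → bb G i j = false := by
    intro i j hi hj
    rw [← Bool.not_eq_true, bb_true]
    exact hind i j hi hj
  have h1 : ∀ i, i ∉ X → x i = c (bb G i u) := by
    intro i hi
    have := hx.eqn i
    rw [one_mul] at this
    rw [← this]
    have h0 : ∑ j ∈ Xᶜ, (c (bb G i j) : ℝ) * x j = 0 := by
      apply Finset.sum_eq_zero
      intro j hj
      rw [Finset.mem_compl] at hj
      rw [hbf i j hi hj, c_false]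
      push_cast
      ring
    rw [h0, zero_add]
  have cnn : ∀ b : Bool, (0 : ℝ) ≤ c b := by
    intro b
    cases b <;> simp [c]
  have c1 : ∀ {i j : V}, G.Adj i j → (c (bb G i j) : ℝ) = 1 := by
    intro i j h
    rw [bb_true.2 h]
    simp [c]
  have h2 : ∀ w ∈ X, w ≠ u → ¬ G.Adj w u ∧ ∀ j, j ∉ X → G.Adj w j → ¬ G.Adj j u := by
    intro w hw hwu
    have := hx.eqn w
    rw [hx.zero w hw hwu, mul_zero] at this
    have h0 : ∀ j ∈ Xᶜ, (0 : ℝ) ≤ (c (bb G w j) : ℝ) * x j := by
      intro j hj
      rw [Finset.mem_compl] at hj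
      rw [h1 j hj]
      exact mul_nonneg (cnn _) (cnn _)
    have hs := Finset.sum_nonneg h0
    have hc := cnn (bb G w u)
    constructor
    · intro h
      rw [c1 h] at this
      linarith
    · intro j hj hwj hju
      have hle := Finset.single_le_sum h0 (Finset.mem_compl.2 hj)
      rw [h1 j hj, c1 hwj, c1 hju] at hle
      linarith
  have hclosed : ∀ a b, G.Adj a b → (a = u ∨ (a ∉ X ∧ G.Adj a u)) → (b = u ∨ (b ∉ X ∧ G.Adj b u)) := by
    intro a b hab ha
    rcases ha with rfl | ⟨haX, hau⟩
    · by_cases hb : b ∈ X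
      · exact absurd hab.symm (h2 b hb hab.ne').1
      · exact Or.inr ⟨hb, hab.symm⟩
    · by_cases hb : b ∈ X
      · by_cases hbu : b = u
        · exact Or.inl hbu
        · exact absurd hau ((h2 b hb hbu).2 a haX hab.symm)
      · exact absurd hab (hind a b haX hb)
  obtain ⟨w⟩ := hG.preconnected u v
  have hreach : ∀ {a b : V} (_ : G.Walk a b), (a = u ∨ (a ∉ X ∧ G.Adj a u)) →
      (b = u ∨ (b ∉ X ∧ G.Adj b u)) := by
    intro a b w
    induction w with
    | nil => exact fun h => h
    | cons hadj _ ih => exact fun h => ih (hclosed _ _ hadj h)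
  rcases hreach w (Or.inl rfl) with h | h
  · exact huv h.symm
  · exact h.1 hv

/-- In a star set of codimension at most three of a connected graph at most one vertex is main. -/
theorem main_le_one (hG : G.Connected) {X : Finset V} (hX : IsStarSet G l X)
    (ht : Fintype.card V ≤ X.card + 3) : (mainVerts G l X).card ≤ 1 := by
  classical
  rw [Finset.card_le_one_iff]
  intro u v hu hv
  by_contra huv
  obtain ⟨h3, hb⟩ := hX.basis
  have huX : u ∈ X := (Finset.mem_filter.1 hu).1
  have hvX : v ∈ X := (Finset.mem_filter.1 hv).1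
  obtain ⟨x, hx1, hx2, hx3⟩ := hb u huX
  obtain ⟨y, hy1, hy2, hy3⟩ := hb v hvX
  have hx : Dual G l X u x := ⟨huX, hx1, hx2, hx3, sum_ne_of_main h3 hu x hx1 hx2 hx3⟩
  have hy : Dual G l X v y := ⟨hvX, hy1, hy2, hy3, sum_ne_of_main h3 hv y hy1 hy2 hy3⟩
  have nu := exists_nbr hG h3 huX huv x hx1 hx2 hx3
  have nv := exists_nbr hG h3 hvX (Ne.symm huv) y hy1 hy2 hy3
  have hcard : (Xᶜ).card ≤ 3 := by
    rw [Finset.card_compl]
    omega
  have h01 : (Xᶜ).card = 0 ∨ (Xᶜ).card = 1 ∨ (Xᶜ).card = 2 ∨ (Xᶜ).card = 3 := by omega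
  rcases h01 with h | h | h | h
  · obtain ⟨j, hj, -⟩ := nu
    rw [Finset.card_eq_zero] at h
    have : j ∈ Xᶜ := Finset.mem_compl.2 hj
    rw [h] at this
    exact absurd this (Finset.notMem_empty j)
  · rw [Finset.card_eq_one] at h
    obtain ⟨p, hT⟩ := h
    exact case1 huv hx hy hT nu nv
  · rw [Finset.card_eq_two] at h
    obtain ⟨p, q, hpq, hT⟩ := h
    obtain ⟨hl, hind⟩ := case2 h3 huv hx hy hpq hT nu nv
    exact special hG huv hx hvX hl hind
  · rw [Finset.card_eq_three] at h
    obtain ⟨p, q, r, hpq, hpr, hqr, hT⟩ := h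
    obtain ⟨hl, hind⟩ := case3 h3 huv hx hy hpq hpr hqr hT nu nv
    exact special hG huv hx hvX hl hind

end Pool.Agent.Q260.SS
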